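import Pool.Agent.MP_6a4325_al.H62.Base2

/-!
Row PV: a polycyclic group in which all torsion free abelian normal subgroups of sections have
centralisers of finite index is abelian-by-finite.
-/

set_option autoImplicit false

namespace Pool.Agent.MP_6a4325_al.H12

open Pool.Agent.MP_6a4325_al.H62

/-- the subgroup generated by a central subgroup and one more element -/
def adj {L : Type} [Group L] (A : Subgroup L) (hA : ∀ a ∈ A, ∀ g, a * g = g * a) (t : L) :
    Subgroup L where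
  carrier := {x | ∃ a ∈ A, ∃ n : ℤ, x = a * t ^ n}
  mul_mem' := by
    rintro _ _ ⟨a, ha, n, rfl⟩ ⟨b, hb, m, rfl⟩
    refine ⟨a * b, A.mul_mem ha hb, n + m, ?_⟩
    rw [zpow_add, mul_assoc, ← mul_assoc (t ^ n), ← hA b hb, mul_assoc, mul_assoc]
  one_mem' := ⟨1, A.one_mem, 0, by simp⟩
  inv_mem' := by
    rintro _ ⟨a, ha, n, rfl⟩
    exact ⟨a⁻¹, A.inv_mem ha, -n, by rw [mul_inv_rev, zpow_neg, hA _ (A.inv_mem ha)]⟩

theorem cent_fi {L : Type} [Group L] (hfg : ∀ K : Subgroup L, K.FG) (hG : GenC L)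
    (A : Subgroup L) (hA : ∀ a ∈ A, ∀ g, a * g = g * a) (hAt : Tf A)
    (hc : ∀ x y : L, x * y * x⁻¹ * y⁻¹ ∈ A) (t : L) :
    (Subgroup.centralizer ({t} : Set L)).FiniteIndex := by
  by_cases h : ∃ m : ℕ, 0 < m ∧ t ^ m ∈ A
  · obtain ⟨m, hm, htm⟩ := h
    have htop : Subgroup.centralizer ({t} : Set L) = ⊤ := by
      refine eq_top_iff.2 fun g _ => Subgroup.mem_centralizer_iff.2 fun s hs => ?_
      rw [Set.mem_singleton_iff.1 hs]
      have h1 := hc g t
      have h2 : g * t * g⁻¹ = (g * t * g⁻¹ * t⁻¹) * t := by group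
      have h3 : g * t ^ m * g⁻¹ = (g * t * g⁻¹ * t⁻¹) ^ m * t ^ m := by
        rw [← conj_pow, ← (show Commute _ t from hA _ h1 t).mul_pow, ← h2]
      have h4 : (g * t * g⁻¹ * t⁻¹) ^ m = 1 := by
        rw [← hA _ htm g, mul_inv_cancel_right] at h3
        exact (mul_eq_right.1 h3.symm)
      have h5 := hAt _ h1 (isOfFinOrder_iff_pow_eq_one.2 ⟨m, hm, h4⟩)
      rw [mul_inv_eq_one, mul_inv_eq_iff_eq_mul] at h5
      exact h5.symm
    rw [htop]
    infer_instance
  · have hn : (adj A hA t).Normal := ⟨by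
      rintro _ ⟨a, ha, n, rfl⟩ g
      refine ⟨a * (g * t ^ n * g⁻¹ * (t ^ n)⁻¹), A.mul_mem ha (hc g _), n, ?_⟩
      rw [← mul_assoc g a, ← hA a ha g]
      group⟩
    have hcm : Cm (adj A hA t) (adj A hA t) := by
      rintro _ ⟨a, ha, n, rfl⟩ _ ⟨b, hb, m, rfl⟩
      exact ((show Commute a _ from hA a ha _).mul_left
        ((show Commute b _ from hA b hb _).symm.mul_right (Commute.zpow_zpow_self t n m))).eq
    have htf : Tf (adj A hA t) := by
      rintro _ ⟨a, ha, n, rfl⟩ hf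
      obtain ⟨k, hk, e⟩ := isOfFinOrder_iff_pow_eq_one.1 hf
      rw [(show Commute a _ from hA a ha _).mul_pow, ← zpow_natCast (t ^ n), ← zpow_mul] at e
      have h1 : t ^ (n * k : ℤ) ∈ A := by
        rw [eq_inv_of_mul_eq_one_right e]
        exact A.inv_mem (A.pow_mem ha k)
      have h2 : t ^ (n * k : ℤ).natAbs ∈ A := by
        rw [← zpow_natCast]
        rcases Int.natAbs_eq (n * k : ℤ) with h3 | h3
        · rwa [← h3]
        · rw [h3, zpow_neg] at h1
          exact (A.inv_mem_iff).1 h1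
      have h3 : (n * k : ℤ).natAbs = 0 := Nat.eq_zero_of_not_pos fun h4 => h ⟨_, h4, h2⟩
      have h4 : n = 0 := by
        rcases mul_eq_zero.1 (Int.natAbs_eq_zero.1 h3) with h5 | h5
        · exact h5
        · omega
      subst h4
      rw [zpow_zero, mul_one] at hf ⊢
      exact hAt a ha hf
    have := hG ⊤ L (⊤ : Subgroup L).subtype (fun g => ⟨⟨g, trivial⟩, rfl⟩) _ hn (hfg _) hcm htf
    refine Subgroup.finiteIndex_of_le (H := Subgroup.centralizer (adj A hA t : Set L))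
      (Subgroup.centralizer_le ?_)
    rintro _ rfl
    exact ⟨1, A.one_mem, 1, by simp⟩

theorem va_of_class_two {L : Type} [Group L] (hfg : ∀ K : Subgroup L, K.FG) (hG : GenC L)
    (A : Subgroup L) (hA : ∀ a ∈ A, ∀ g, a * g = g * a) (hAt : Tf A)
    (hc : ∀ x y : L, x * y * x⁻¹ * y⁻¹ ∈ A) : VA L := by
  obtain ⟨T, hT⟩ := hfg ⊤
  refine VA.of_comm (⨅ t ∈ T, Subgroup.centralizer ({t} : Set L))
    (Subgroup.finiteIndex_iInf' _ fun t _ => cent_fi hfg hG A hA hAt hc t) fun a ha b _ => ?_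
  have h1 : Subgroup.closure (↑T : Set L) ≤ Subgroup.centralizer ({a} : Set L) := by
    refine (Subgroup.closure_le _).2 fun t ht => Subgroup.mem_centralizer_iff.2 ?_
    rintro _ rfl
    exact (Subgroup.mem_centralizer_iff.1
      (Subgroup.mem_iInf.1 (Subgroup.mem_iInf.1 ha t) ht) t rfl).symm
  exact Subgroup.mem_centralizer_iff.1 (h1 (hT ▸ Subgroup.mem_top b)) a rfl

theorem pv (api : PCApi) (h0 : SPl0) : SPV := by
  rintro H _ ⟨n, hn⟩ hG
  induction n using Nat.strong_induction_on generalizing H with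
  | _ n ih =>
    by_cases hf : Finite H
    · exact VA.of_finite
    obtain ⟨A, hAn, hA0, hAc, hAt⟩ := h0 H ⟨n, hn⟩ (not_finite_iff_infinite.1 hf)
    have hinf : Infinite (QuotientGroup.mk' A).ker := by
      rw [QuotientGroup.ker_mk']
      refine not_finite_iff_infinite.1 fun hfin => hA0 (eq_bot_iff.2 fun a ha => hAt a ha ?_)
      exact (A.subtype).isOfFinOrder (isOfFinOrder_of_finite (⟨a, ha⟩ : A))
    obtain ⟨m, hm, hq⟩ := api.quotInf n H (H ⧸ A) (QuotientGroup.mk' A)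
      (QuotientGroup.mk'_surjective A) hinf hn
    obtain ⟨Y, -, hY, hYc⟩ := ih m hm (H ⧸ A) hq
      (hG.of_surj (QuotientGroup.mk' A) (QuotientGroup.mk'_surjective A))
    have hC := hG ⊤ H (⊤ : Subgroup H).subtype (fun g => ⟨⟨g, trivial⟩, rfl⟩) A hAn
      (api.fg H ⟨n, hn⟩ A) hAc hAt
    have hY' := finiteIndex_comap Y hY (QuotientGroup.mk' A)
    let L : Subgroup H := Subgroup.centralizer (A : Set H) ⊓ Y.comap (QuotientGroup.mk' A)
    refine VA.of_finiteIndex L inferInstance (va_of_class_two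
      (api.fg L ⟨n, api.sub n H L L.subtype L.subtype_injective hn⟩)
      (hG.of_inj L.subtype L.subtype_injective) (A.subgroupOf L)
      (fun a ha g => Subtype.ext (Subgroup.mem_centralizer_iff.1 g.2.1 a ha))
      (fun a ha hfo => Subtype.ext (hAt a ha (L.subtype.isOfFinOrder hfo))) fun x y => ?_)
    have h1 : QuotientGroup.mk' A ((x : H) * y * (x : H)⁻¹ * (y : H)⁻¹) = 1 := by
      rw [map_mul, map_mul, map_mul, hYc _ x.2.2 _ y.2.2, map_inv, map_inv]
      group
    exact (QuotientGroup.eq_one_iff ((x : H) * y * (x : H)⁻¹ * (y : H)⁻¹)).1 h1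

end Pool.Agent.MP_6a4325_al.H12
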